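import Pool.Agent.Helper41.SQC.Goals
import Pool.Agent.Helper79.SQ.YF
import Pool.Agent.Helper4.SQ.QMain

/-! Packet SQC-YFT (MP_bb32d1_al, stage C). -/

set_option autoImplicit false

namespace Pool.Agent.Helper77.SQC

open Matrix Pool.Agent.Helper19.SQ Pool.Agent.Helper79.SQ Pool.Agent.Helper41.SQC
  Pool.Agent.Helper4.SQ

section

variable {B : Type} [Ring B] [Algebra ℂ B]

/-- the entries -/
theorem ent (hRO : S_RO) (hKI : S_KI) {l : ℕ} {q : ℂ} {F K : ℕ → B} (hl : 1 ≤ l)
    (hq : q ≠ 0) (hq2 : q ^ 2 ≠ -1) (hKc : ∀ i j, K i * K j = K j * K i) (hKp : ∀ j, K j ^ l = 1)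
    (hKF : ∀ j i, K j * F i = q ^ (-pr j i) • (F i * K j)) (hsF : SerreRel q F) {a b k : ℕ} :
    q ^ (-pr b k) • (Yent q F K a b * F k) + (if b = k then Yent q F K a (k + 1) else 0)
      = (if a = k + 1 then K (k + 1) * ki l K k * Yent q F K k b else 0)
        + F k * Yent q F K a b := by
  obtain ⟨i1, i2, i3, i4, i5, i6⟩ := hKI B l K hl hKc hKp
  have hFK : ∀ a, F k * K a = q ^ pr a k • (K a * F k) := by
    intro a
    rw [hKF a k, smul_smul, ← zpow_add₀ hq, add_neg_cancel, zpow_zero, one_smul]
  rcases lt_trichotomy a b with hab | hab | hab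
  · rw [Yent_lt q F K hab]
    have hc := core hRO hq hq2 hsF (k := k) hab
    have e1 : (if b = k then Yent q F K a (k + 1) else 0)
        = (q - q⁻¹) • (K a * (if b = k then rvo q F a (k + 1) else 0)) := by
      by_cases hb : b = k
      · rw [if_pos hb, if_pos hb, Yent_lt q F K (by omega)]
      · rw [if_neg hb, if_neg hb, mul_zero, smul_zero]
    have e2 : (if a = k + 1 then K (k + 1) * ki l K k * Yent q F K k b else 0)
        = (q - q⁻¹) • (K a * (if a = k + 1 then rvo q F k b else 0)) := by
      by_cases ha : a = k + 1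
      · rw [if_pos ha, if_pos ha, Yent_lt q F K (by omega), mul_smul_comm, ha]
        congr 1
        rw [mul_assoc, ← mul_assoc (ki l K k), i2 k, one_mul]
      · rw [if_neg ha, if_neg ha, mul_zero, smul_zero]
    have e3 : F k * ((q - q⁻¹) • (K a * rvo q F a b))
        = (q - q⁻¹) • (K a * (q ^ pr a k • (F k * rvo q F a b))) := by
      rw [mul_smul_comm, ← mul_assoc, hFK a, smul_mul_assoc, mul_smul_comm, mul_assoc]
    have e4 : q ^ (-pr b k) • ((q - q⁻¹) • (K a * rvo q F a b) * F k)
        = (q - q⁻¹) • (K a * (q ^ (-pr b k) • (rvo q F a b * F k))) := by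
      rw [smul_mul_assoc, smul_comm, mul_assoc, mul_smul_comm]
    rw [e1, e2, e3, e4, ← smul_add, ← smul_add, ← mul_add, ← mul_add, hc]
  · subst hab
    rw [Yent_self]
    have hK : K a * F k = q ^ (-pr a k) • (F k * K a) := hKF a k
    by_cases h1 : a = k
    · subst h1
      rw [if_pos rfl, if_neg (show ¬ a = a + 1 by omega), Yent_lt q F K (by omega), rvo_base, hK,
        pr_self, smul_smul, smul_smul, zero_add, ← add_smul, _root_.zpow_neg_one]
      have : q⁻¹ * q⁻¹ + (q - q⁻¹) * q⁻¹ = 1 := by field_simp; ring
      rw [this, one_smul]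
    · rw [if_neg h1, add_zero]
      by_cases h2 : a = k + 1
      · subst h2
        rw [if_pos rfl, Yent_lt q F K (by omega), rvo_base, pr_succ, neg_neg, zpow_one,
          mul_smul_comm, mul_assoc (K (k + 1)), ← mul_assoc (ki l K k), i2 k, one_mul, hK,
          pr_succ, neg_neg, zpow_one, smul_smul, smul_smul]
        have e : (F k * K (k + 1) : B) = (1 : ℂ) • (F k * K (k + 1)) := (one_smul _ _).symm
        conv_rhs => rw [e, smul_smul, ← add_smul]
        congr 1
        field_simp
        ring
      · rw [if_neg h2, zero_add, hK, pr_other h1 h2, neg_zero, zpow_zero, one_smul, one_smul]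
  · rw [Yent_gt q F K hab, zero_mul, smul_zero, mul_zero, zero_add, add_zero]
    by_cases hb : b = k
    · subst hb
      rw [if_pos rfl]
      by_cases ha : a = b + 1
      · subst ha
        rw [if_pos rfl, Yent_self, Yent_self, mul_assoc, i2 b, mul_one]
      · rw [if_neg ha, Yent_gt q F K (by omega)]
    · rw [if_neg hb]
      by_cases ha : a = k + 1
      · rw [if_pos ha, Yent_gt q F K (by omega), mul_zero]
      · rw [if_neg ha]

end

theorem c_yft : S_YFT := by
  intro R _ _ N l q κ κi E F K hPar hκ hκi hκκ h k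
  have hl : 1 ≤ l := by have := hPar.h3; omega
  have hq : q ≠ 0 := hPar.prim.ne_zero (by omega)
  have hq2 : q ^ 2 ≠ -1 := by
    intro hc
    have h4 : q ^ 4 = 1 := by
      have : q ^ 4 = (q ^ 2) ^ 2 := by ring
      rw [this, hc]; ring
    have hd := hPar.prim.dvd_of_pow_eq_one 4 h4
    have h3 := hPar.h3
    have ho := hPar.odd
    have hle := Nat.le_of_dvd (by norm_num) hd
    obtain ⟨c, hc2⟩ := hd
    obtain ⟨e, he⟩ := ho
    have : l = 3 ∨ l = 4 := by omega
    rcases this with h5 | h5
    · rw [h5] at hc2; omega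
    · omega
  by_cases hk : k < N
  · ext a b
    rw [Matrix.mul_apply, Matrix.mul_apply]
    let c0 : Fin (N + 1) := ⟨k + 1, by omega⟩
    let d0 : Fin (N + 1) := ⟨k, by omega⟩
    have hL : ∑ c, (Matrix.of fun a b : Fin (N + 1) => κ a * Yent q F K a b) a c * oF N q F k c b
        = κ a * (q ^ (-pr b k) • (Yent q F K a b * F k)
          + (if (b : ℕ) = k then Yent q F K a (k + 1) else 0)) := by
      have h1 : ∀ c : Fin (N + 1),
          (Matrix.of fun a b : Fin (N + 1) => κ a * Yent q F K a b) a c * oF N q F k c b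
          = (if c = b then κ a * (q ^ (-pr b k) • (Yent q F K a b * F k)) else 0)
            + (if c = c0 then κ a * (if (b : ℕ) = k then Yent q F K a (k + 1) else 0) else 0) := by
        intro c
        have e1 : (Matrix.of fun a b : Fin (N + 1) => κ a * Yent q F K a b) a c
          = κ a * Yent q F K a c := rfl
        have e2 : oF N q F k c b = (if c = b then q ^ (-pr c k) • F k else 0)
          + (if (c : ℕ) = k + 1 ∧ (b : ℕ) = k then 1 else 0) := rfl
        rw [e1, e2, mul_add]
        congr 1
        · by_cases hc : c = b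
          · rw [if_pos hc, if_pos hc, hc, mul_assoc, mul_smul_comm]
          · rw [if_neg hc, if_neg hc, mul_zero]
        · by_cases hc : c = c0
          · rw [if_pos hc]
            have hc' : (c : ℕ) = k + 1 := by rw [hc]
            by_cases hb : (b : ℕ) = k
            · rw [if_pos ⟨hc', hb⟩, if_pos hb, mul_one, hc']
            · rw [if_neg (fun hh => hb hh.2), if_neg hb, mul_zero, mul_zero]
          · rw [if_neg hc]
            have hc' : ¬ (c : ℕ) = k + 1 := fun hh => hc (Fin.ext hh)
            rw [if_neg (fun hh => hc' hh.1), mul_zero]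
      rw [Finset.sum_congr rfl fun c _ => h1 c, Finset.sum_add_distrib, Finset.sum_ite_eq',
        Finset.sum_ite_eq', if_pos (Finset.mem_univ _), if_pos (Finset.mem_univ _), ← mul_add]
    have hR : ∑ c, dFt N l (fun k => κi k * κ (k + 1)) F K k a c *
        (Matrix.of fun a b : Fin (N + 1) => κ a * Yent q F K a b) c b
        = κ a * ((if (a : ℕ) = k + 1 then K (k + 1) * ki l K k * Yent q F K k b else 0)
          + F k * Yent q F K a b) := by
      have h1 : ∀ c : Fin (N + 1), dFt N l (fun k => κi k * κ (k + 1)) F K k a c *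
          (Matrix.of fun a b : Fin (N + 1) => κ a * Yent q F K a b) c b
          = (if c = d0 then κ a * (if (a : ℕ) = k + 1 then K (k + 1) * ki l K k * Yent q F K k b
              else 0) else 0) + (if c = a then κ a * (F k * Yent q F K a b) else 0) := by
        intro c
        have e1 : (Matrix.of fun a b : Fin (N + 1) => κ a * Yent q F K a b) c b
          = κ c * Yent q F K c b := rfl
        have e2 : dFt N l (fun k => κi k * κ (k + 1)) F K k a c = (if a = c then F k else 0)
          + (if (a : ℕ) = k + 1 ∧ (c : ℕ) = k then (κi k * κ (k + 1)) * (K (k + 1) * ki l K k)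
              else 0) := rfl
        rw [e1, e2, add_mul, add_comm]
        congr 1
        · by_cases hc : c = d0
          · rw [if_pos hc]
            have hc' : (c : ℕ) = k := by rw [hc]
            by_cases ha : (a : ℕ) = k + 1
            · rw [if_pos ⟨ha, hc'⟩, if_pos ha, hc', ha]
              have e3 : κi k * κ (k + 1) * (K (k + 1) * ki l K k) * (κ k * Yent q F K k b)
                  = κ k * κi k * (κ (k + 1) * (K (k + 1) * ki l K k * Yent q F K k b)) := by
                rw [← mul_assoc _ (κ k), ← hκ k (κi k * κ (k + 1) * (K (k + 1) * ki l K k))]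
                simp only [mul_assoc]
              rw [e3, hκκ, one_mul]
            · rw [if_neg (fun hh => ha hh.1), if_neg ha, zero_mul, mul_zero]
          · rw [if_neg hc]
            have hc' : ¬ (c : ℕ) = k := fun hh => hc (Fin.ext hh)
            rw [if_neg (fun hh => hc' hh.2), zero_mul]
        · by_cases hc : c = a
          · rw [if_pos hc, if_pos hc.symm, hc, ← mul_assoc, ← hκ a (F k), mul_assoc]
          · rw [if_neg hc, if_neg (fun hh => hc hh.symm), zero_mul]
      rw [Finset.sum_congr rfl fun c _ => h1 c, Finset.sum_add_distrib, Finset.sum_ite_eq',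
        Finset.sum_ite_eq', if_pos (Finset.mem_univ _), if_pos (Finset.mem_univ _), ← mul_add]
    rw [hL, hR, ent qRO qKI hl hq hq2 h.K_comm h.K_pow h.KF h.sF]
  · have hF : F k = 0 := h.F_out k (by omega)
    have e1 : oF N q F k = 0 := by
      ext a b
      have e2 : oF N q F k a b = (if a = b then q ^ (-pr a k) • F k else 0)
          + (if (a : ℕ) = k + 1 ∧ (b : ℕ) = k then 1 else 0) := rfl
      rw [e2, hF, smul_zero, ite_self, if_neg (by have := a.isLt; omega), add_zero]
      rfl
    have e3 : dFt N l (fun k => κi k * κ (k + 1)) F K k = 0 := by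
      ext a b
      have e2 : dFt N l (fun k => κi k * κ (k + 1)) F K k a b = (if a = b then F k else 0)
          + (if (a : ℕ) = k + 1 ∧ (b : ℕ) = k then (κi k * κ (k + 1)) * (K (k + 1) * ki l K k)
              else 0) := rfl
      rw [e2, hF, ite_self, if_neg (by have := a.isLt; omega), add_zero]
      rfl
    rw [e1, e3, Matrix.mul_zero, Matrix.zero_mul]

end Pool.Agent.Helper77.SQC
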